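import Mathlib

namespace Pool.Agent.H97.VB

open Set Complex Real

/-- the number `2 m + 1` of the tiles in the fan -/
class Par where
  m : ℕ
  hm : 1 ≤ m



noncomputable section

variable [Par]

def D : ℝ := 6 * (2 * (Par.m : ℝ) + 1)

theorem D_pos : 0 < D := by
  unfold D
  positivity

theorem D_ne : D ≠ 0 := D_pos.ne'

theorem D_mul (j k : ℤ) (n : ℤ) (h : k = j + n * (2 * (Par.m : ℤ) + 1)) : ((2 * k + 1) * π / D : ℝ) = (2 * j + 1) * π / D + n * (π / 3) := by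
  have h1 : (k : ℝ) = j + n * (2 * (Par.m : ℝ) + 1) := by
    rw [h]
    push_cast
    ring
  have h2 := D_ne
  rw [h1]
  field_simp
  unfold D
  ring

theorem lt_D {n : ℤ} (h : n < 6 * (2 * (Par.m : ℤ) + 1)) : (n : ℝ) < D := by
  have : (n : ℝ) < ((6 * (2 * (Par.m : ℤ) + 1) : ℤ) : ℝ) := by exact_mod_cast h
  push_cast at this
  exact this

def E (n : ℤ) : ℂ := Complex.exp ((n * π / D : ℝ) * I)

def l (j : ℤ) (x : ℂ) : ℝ := (x * E (-(2 * j + 1))).re

def c (j : ℤ) : ℝ := Real.cos ((2 * j + 1) * π / D)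

def s (n : ℤ) : ℝ := Real.sin (2 * n * π / D)

theorem E_add (m n : ℤ) : E (m + n) = E m * E n := by
  simp only [E, ← Complex.exp_add]
  congr 1
  push_cast
  ring

theorem E_zero : E 0 = 1 := by simp [E]

theorem E_re (n : ℤ) : (E n).re = Real.cos (n * π / D) := exp_ofReal_mul_I_re _

theorem E_im (n : ℤ) : (E n).im = Real.sin (n * π / D) := exp_ofReal_mul_I_im _

theorem E_norm (n : ℤ) : ‖E n‖ = 1 := norm_exp_ofReal_mul_I _

theorem E_conj (n : ℤ) : (starRingEnd ℂ) (E n) = E (-n) := by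
  apply Complex.ext <;> simp [E_re, E_im, neg_div]

theorem l_eq (j : ℤ) (x : ℂ) : l j x = x.re * Real.cos ((2 * j + 1) * π / D) +
    x.im * Real.sin ((2 * j + 1) * π / D) := by
  simp only [l, mul_re, E_re, E_im]
  push_cast
  rw [neg_mul, neg_div, Real.cos_neg, Real.sin_neg]
  ring

theorem l_sub (j : ℤ) (x y : ℂ) : l j (x - y) = l j x - l j y := by simp [l, sub_mul]

theorem l_rot (j m : ℤ) (x : ℂ) : l j (E (2 * m) * x) = l (j - m) x := by
  rw [l, l, mul_comm (E _) x, mul_assoc, ← E_add]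
  congr 3
  ring

theorem l_conj (j : ℤ) (x : ℂ) : l j ((starRingEnd ℂ) x) = l (-1 - j) x := by
  rw [l, ← conj_re, map_mul, conj_conj, E_conj, l]
  congr 3
  ring

theorem l_one (j : ℤ) : l j 1 = c j := by simp [l_eq, c]

theorem l_E (j m : ℤ) : l j (E (2 * m)) = c (j - m) := by rw [← l_one, ← l_rot, mul_one]

theorem l_neg {j k : ℤ} (h : k = j + (3*(2 * (Par.m : ℤ) + 1))) (x : ℂ) : l k x = -l j x := by
  have : ((2 * k + 1) * π / D : ℝ) = (2 * j + 1) * π / D + π := by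
    rw [D_mul j k 3 (by rw [h])]
    push_cast
    ring
  rw [l_eq, l_eq, this, Real.cos_add_pi, Real.sin_add_pi]
  ring

theorem l_per {j k : ℤ} (h : k = j + (6*(2 * (Par.m : ℤ) + 1))) (x : ℂ) : l k x = l j x := by
  rw [l_neg (j := j + (3*(2 * (Par.m : ℤ) + 1))) (by omega), l_neg rfl, neg_neg]

theorem c_neg {j k : ℤ} (h : k = j + (3*(2 * (Par.m : ℤ) + 1))) : c k = -c j := by simp only [← l_one, l_neg h]

theorem c_sym {j k : ℤ} (h : k = -1 - j) : c k = c j := by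
  rw [h, ← l_one, ← l_conj, map_one, l_one]

theorem three (i j k : ℤ) (x : ℂ) : s (k - i) * l j x = s (k - j) * l i x + s (j - i) * l k x := by
  have : ∀ u v : ℤ, s (u - v) = Real.sin ((2 * u + 1) * π / D - (2 * v + 1) * π / D) := fun u v => by
    rw [s]
    congr 1
    push_cast
    ring
  simp only [this, l_eq, Real.sin_sub]
  ring

theorem s_pos {n : ℤ} (a : 0 < n) (b : n < (3*(2 * (Par.m : ℤ) + 1))) : 0 < s n := by
  have a' : (0 : ℝ) < n := by exact_mod_cast a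
  have b' : ((2 * n : ℤ) : ℝ) < D := lt_D (by omega)
  push_cast at b'
  have d := D_pos
  refine sin_pos_of_pos_of_lt_pi (by positivity) ?_
  rw [div_lt_iff₀ d, mul_comm π]
  exact mul_lt_mul_of_pos_right b' pi_pos

theorem s_nn {n : ℤ} (a : 0 ≤ n) (b : n < (3*(2 * (Par.m : ℤ) + 1))) : 0 ≤ s n := by
  rcases a.eq_or_lt with rfl | a
  exacts [by simp [s], (s_pos a b).le]

theorem mid {i k : ℤ} {x : ℂ} (a : 0 ≤ l i x) (b : 0 ≤ l k x) (j : ℤ) (h : i ≤ j ∧ j ≤ k ∧ k < i + (3*(2 * (Par.m : ℤ) + 1))) :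
    0 ≤ l j x := by
  rcases h.1.eq_or_lt with rfl | e
  · exact a
  refine nonneg_of_mul_nonneg_right (a := s (k - i)) ?_ (s_pos (by omega) (by omega))
  rw [three]
  exact add_nonneg (mul_nonneg (s_nn (by omega) (by omega)) a) (mul_nonneg (s_nn (by omega) (by omega)) b)

theorem midR {i k : ℤ} {x : ℂ} (a : 0 ≤ l i x) (b : 0 < l k x) (j : ℤ)
    (h : i < j ∧ j ≤ k ∧ k < i + (3*(2 * (Par.m : ℤ) + 1))) : 0 < l j x := by
  refine pos_of_mul_pos_left (b := s (k - i)) ?_ (s_nn (by omega) (by omega))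
  rw [mul_comm, three]
  exact add_pos_of_nonneg_of_pos (mul_nonneg (s_nn (by omega) (by omega)) a)
    (mul_pos (s_pos (by omega) (by omega)) b)

theorem midL {i k : ℤ} {x : ℂ} (a : 0 < l i x) (b : 0 ≤ l k x) (j : ℤ)
    (h : i ≤ j ∧ j < k ∧ k < i + (3*(2 * (Par.m : ℤ) + 1))) : 0 < l j x := by
  refine pos_of_mul_pos_left (b := s (k - i)) ?_ (s_nn (by omega) (by omega))
  rw [mul_comm, three]
  exact add_pos_of_pos_of_nonneg (mul_pos (s_pos (by omega) (by omega)) a)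
    (mul_nonneg (s_nn (by omega) (by omega)) b)

theorem half : ((2 * ((3*(Par.m:ℤ)+1 : ℤ) : ℝ) + 1) * π / D : ℝ) = π / 2 := by
  have := D_ne
  field_simp
  unfold D
  push_cast
  ring

theorem zero_of {i k : ℤ} {x : ℂ} (a : l i x = 0) (b : l k x = 0) (h : i < k ∧ k < i + (3*(2 * (Par.m : ℤ) + 1))) :
    x = 0 := by
  have : ∀ j, l j x = 0 := fun j => by
    have := three i j k x
    rw [a, b, mul_zero, mul_zero, add_zero] at this
    exact (mul_eq_zero.mp this).resolve_left (s_pos (by omega) (by omega)).ne'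
  have u := this (3*(Par.m:ℤ)+1)
  have v := this 0
  rw [l_eq] at u v
  rw [half] at u
  simp at u
  have : 0 < Real.cos ((2 * (0 : ℤ) + 1) * π / D) := by
    have d := D_pos
    have d6 : 6 ≤ D := by
      unfold D
      have : (0 : ℝ) ≤ Par.m := Nat.cast_nonneg _
      linarith
    have h1 : 0 < (2 * ((0 : ℤ) : ℝ) + 1) * π / D := by
      push_cast
      have := pi_pos
      positivity
    have h2 : (2 * ((0 : ℤ) : ℝ) + 1) * π / D < π / 2 := by
      rw [div_lt_iff₀ d]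
      push_cast
      nlinarith [pi_pos]
    exact cos_pos_of_mem_Ioo ⟨by linarith [pi_pos], h2⟩
  rw [u, zero_mul, add_zero] at v
  exact Complex.ext ((mul_eq_zero.mp v).resolve_right this.ne') u

theorem c_dec {i j : ℤ} (h : 0 ≤ i ∧ i < j ∧ j ≤ (3*(2 * (Par.m : ℤ) + 1)-1)) : c j < c i := by
  have a : (0 : ℝ) ≤ i := by exact_mod_cast h.1
  have b : (i : ℝ) < j := by exact_mod_cast h.2.1
  have d : ((2 * j + 1 : ℤ) : ℝ) < D := lt_D (by omega)
  push_cast at d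
  have D0 := D_pos
  have p0 := pi_pos
  refine cos_lt_cos_of_nonneg_of_le_pi (by positivity) ?_ ?_
  · rw [div_le_iff₀ D0, mul_comm π]
    exact mul_le_mul_of_nonneg_right d.le p0.le
  · exact div_lt_div_of_pos_right (mul_lt_mul_of_pos_right (by linarith) p0) D0

theorem c_inc {i j : ℤ} (h : (3*(2 * (Par.m : ℤ) + 1)) ≤ i ∧ i < j ∧ j ≤ (6*(2 * (Par.m : ℤ) + 1)-1)) : c i < c j := by
  rw [c_neg (k := i) (j := i - (3*(2 * (Par.m : ℤ) + 1))) (by omega), c_neg (k := j) (j := j - (3*(2 * (Par.m : ℤ) + 1))) (by omega)]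
  exact neg_lt_neg (c_dec (by omega))

theorem c7 : c (3*(Par.m:ℤ)+1) = 0 := by
  rw [c, half, Real.cos_pi_div_two]

theorem c_le (j : ℤ) : c j ≤ c 0 := by
  have per : ∀ n : ℤ, c (j % (6*(2 * (Par.m : ℤ) + 1)) + (6*(2 * (Par.m : ℤ) + 1)) * n) = c (j % (6*(2 * (Par.m : ℤ) + 1))) := fun n => by
    rw [c, c, ← Real.cos_add_int_mul_two_pi ((2 * ((j % (6*(2 * (Par.m : ℤ) + 1)) : ℤ) : ℝ) + 1) * π / D) n]
    congr 1
    rw [D_mul (j % (6*(2 * (Par.m : ℤ) + 1))) (j % (6*(2 * (Par.m : ℤ) + 1)) + (6*(2 * (Par.m : ℤ) + 1)) * n) (6 * n) (by ring)]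
    push_cast
    ring
  rw [← Int.emod_add_mul_ediv j (6*(2 * (Par.m : ℤ) + 1)), per]
  have a := Int.emod_nonneg j (show ((6*(2 * (Par.m : ℤ) + 1)) : ℤ) ≠ 0 by omega)
  have b := Int.emod_lt_of_pos j (show (0 : ℤ) < (6*(2 * (Par.m : ℤ) + 1)) by omega)
  generalize j % (6*(2 * (Par.m : ℤ) + 1)) = i at *
  have e : c (6*(2 * (Par.m : ℤ) + 1)-1) = c 0 := by
    rw [c_neg (k := (6*(2 * (Par.m : ℤ) + 1)-1)) (j := (3*(2 * (Par.m : ℤ) + 1)-1)) (by omega), c_neg (k := (3*(2 * (Par.m : ℤ) + 1)-1)) (j := -1) (by omega), c_sym (k := -1) (j := 0) (by omega),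
      neg_neg]
  rcases a.eq_or_lt with rfl | a
  · rfl
  by_cases q : i ≤ (3*(2 * (Par.m : ℤ) + 1)-1)
  · exact (c_dec (by omega)).le
  rcases (show i ≤ (6*(2 * (Par.m : ℤ) + 1)-1) by omega).eq_or_lt with rfl | b
  · exact e.le
  · exact e ▸ (c_inc (by omega)).le

theorem c_ge (j : ℤ) : 0 ≤ c 0 + c j := by linarith [c_le (j + (3*(2 * (Par.m : ℤ) + 1))), c_neg (k := j + (3*(2 * (Par.m : ℤ) + 1))) (j := j) (by omega)]

theorem c5 {i j k : ℤ} (h : i = j - (2 * (Par.m : ℤ) + 1) ∧ k = j + (2 * (Par.m : ℤ) + 1)) : c i + c k = c j := by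
  have a : ((2 * i + 1) * π / D : ℝ) = (2 * j + 1) * π / D - π / 3 := by
    rw [D_mul j i (-1) (by rw [h.1]; ring)]
    push_cast
    ring
  have b : ((2 * k + 1) * π / D : ℝ) = (2 * j + 1) * π / D + π / 3 := by
    rw [D_mul j k 1 (by rw [h.2]; ring)]
    push_cast
    ring
  rw [c, c, c, a, b, Real.cos_add, Real.cos_sub, cos_pi_div_three]
  ring

theorem c_pos : 0 < c 0 := c7 ▸ c_dec (by omega)

theorem c15 : c (3*(2 * (Par.m : ℤ) + 1)) = -c 0 := c_neg (by omega)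

def aff (e : Bool) (m : ℤ) (w : ℂ) : ℂ ≃ᵢ ℂ :=
  ((if e then conjLIE.toIsometryEquiv else 1).trans
    (IsometryEquiv.mk' (E (2 * m) * ·) (E (-(2 * m)) * ·)
      (fun x => by rw [← mul_assoc, ← E_add, add_neg_cancel, E_zero, one_mul])
      (Isometry.of_dist_eq fun x y => by
        rw [dist_eq_norm, ← mul_sub, norm_mul, E_norm, one_mul, dist_eq_norm]))).trans
    (IsometryEquiv.addRight (-w))

theorem aff_t (m : ℤ) (w x : ℂ) : aff true m w x = E (2 * m) * (starRingEnd ℂ) x - w :=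
  (sub_eq_add_neg _ _).symm

theorem aff_f (m : ℤ) (w x : ℂ) : aff false m w x = E (2 * m) * x - w := (sub_eq_add_neg _ _).symm

def R := aff false (-1) 0
def G := aff true (2*(2 * (Par.m : ℤ) + 1)) (E (2 * (2*(2 * (Par.m : ℤ) + 1))))
def S := aff true ((2 * (Par.m : ℤ) + 1)+1) (E (2 * (2*(2 * (Par.m : ℤ) + 1)+1)))
def P := aff false (-(2*(2 * (Par.m : ℤ) + 1)-1)) (E (2 * (3*(2 * (Par.m : ℤ) + 1)+1)))

theorem l_R (j : ℤ) (x : ℂ) : l j (R x) = l (j + 1) x := by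
  rw [R, aff_f, sub_zero, l_rot, sub_neg_eq_add]

theorem l_G (j : ℤ) (x : ℂ) : l j (G x) = l ((2*(2 * (Par.m : ℤ) + 1)-1) - j) x - c (j - (2*(2 * (Par.m : ℤ) + 1))) := by
  rw [G, aff_t, l_sub, l_rot, l_conj, l_E]
  congr 2
  ring

theorem l_S (j : ℤ) (x : ℂ) : l j (S x) = l ((2 * (Par.m : ℤ) + 1) - j) x - c (j - (2*(2 * (Par.m : ℤ) + 1)+1)) := by
  rw [S, aff_t, l_sub, l_rot, l_conj, l_E]
  congr 2
  ring

theorem l_P (j : ℤ) (x : ℂ) : l j (P x) = l (j + (2*(2 * (Par.m : ℤ) + 1)-1)) x - c (j - (3*(2 * (Par.m : ℤ) + 1)+1)) := by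
  rw [P, aff_f, l_sub, l_rot, l_E, sub_neg_eq_add]

theorem l_Rn (k : ℕ) (j : ℤ) (x : ℂ) : l j ((R ^ k) x) = l (j + k) x := by
  induction k generalizing j with
  | zero => simp
  | succ k ih => rw [pow_succ', IsometryEquiv.mul_apply, l_R, ih]; congr 1; push_cast; ring

def Gen (x : ℂ) : Prop := ∀ (j : ℤ) (L : List ℤ), l j x ≠ (L.map fun m => c (j - m)).sum

theorem gen : Dense {x | Gen x} := by
  have : {x | Gen x} = ⋂ v : ℤ × List ℤ, l v.1 ⁻¹' {(v.2.map fun m => c (v.1 - m)).sum}ᶜ := by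
    ext p
    simp only [Gen, mem_iInter, Prod.forall]
    rfl
  rw [this]
  have : ∀ j, ∃ f : ℂ →L[ℝ] ℝ, l j = f := fun j =>
    ⟨reCLM.comp ((ContinuousLinearMap.mul ℝ ℂ).flip (E (-(2 * j + 1)))), rfl⟩
  refine dense_iInter_of_isOpen (fun v => isOpen_compl_singleton.preimage ?_) fun v => ?_
  · obtain ⟨f, e⟩ := this v.1
    exact e ▸ f.continuous
  · obtain ⟨f, e⟩ := this v.1
    refine (dense_compl_singleton _).preimage (e ▸ f.isOpenMap_of_ne_zero fun z => ?_)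
    have := congrFun e (E (2 * v.1))
    rw [l_E, z, sub_self] at this
    exact c_pos.ne' this

theorem Gen.of {x y : ℂ} (h : Gen x) (e : Bool) (m : ℤ) (M : List ℤ)
    (q : ∀ j, l j y = l (if e then m - j else j + m) x - (M.map fun k => c (j - k)).sum) : Gen y := by
  intro j L z
  refine h (if e then m - j else j + m) ((L ++ M).map fun k => if e then m + 1 - k else k + m) ?_
  rw [← sub_add_cancel (l _ x) (M.map fun k => c (j - k)).sum, ← q, z, ← List.sum_append,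
    ← List.map_append, List.map_map]
  congr 2
  ext k
  cases e
  · simp
  · exact c_sym (by simp; ring)

theorem Gen.R {x : ℂ} (h : Gen x) : Gen (R x) := h.of false 1 [] fun j => by simp [l_R]

theorem Gen.G {x : ℂ} (h : Gen x) : Gen (G x) := h.of true (2*(2 * (Par.m : ℤ) + 1)-1) [(2*(2 * (Par.m : ℤ) + 1))] fun j => by simp [l_G]

theorem Gen.S {x : ℂ} (h : Gen x) : Gen (S x) := h.of true (2 * (Par.m : ℤ) + 1) [(2*(2 * (Par.m : ℤ) + 1)+1)] fun j => by simp [l_S]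

theorem Gen.P {x : ℂ} (h : Gen x) : Gen (P x) := h.of false (2*(2 * (Par.m : ℤ) + 1)-1) [(3*(2 * (Par.m : ℤ) + 1)+1)] fun j => by simp [l_P]

theorem Gen.pow {x : ℂ} (h : Gen x) {g : ℂ ≃ᵢ ℂ} (hg : ∀ x, Gen x → Gen (g x)) (k : ℕ) :
    Gen ((g ^ k) x) := by
  induction k with
  | zero => exact h
  | succ k ih => rw [pow_succ']; exact hg _ ih

theorem l_GG (j : ℤ) (x : ℂ) : l j (G (G x)) = l j x - c (j - (2 * (Par.m : ℤ) + 1)) := by
  rw [l_G, l_G, sub_sub_cancel, c_sym (k := (2*(2 * (Par.m : ℤ) + 1)-1) - j - (2*(2 * (Par.m : ℤ) + 1))) (j := j) (by ring),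
    ← c5 (i := j - (2*(2 * (Par.m : ℤ) + 1))) (j := j - (2 * (Par.m : ℤ) + 1)) (k := j) (by omega)]
  ring

theorem l_G2 (n j : ℤ) (x : ℂ) : l j ((G ^ (2 * n)) x) = l j x - n * c (j - (2 * (Par.m : ℤ) + 1)) := by
  induction n using Int.induction_on with
  | zero => simp
  | succ n ih =>
    rw [mul_add, add_comm, zpow_add, IsometryEquiv.mul_apply]
    refine (l_GG _ _).trans ?_
    rw [ih]
    push_cast
    ring
  | pred n ih =>
    have := l_GG j ((G ^ (2 * (-(n : ℤ) - 1))) x)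
    have e : G (G ((G ^ (2 * (-(n : ℤ) - 1))) x)) = (G ^ (2 * -(n : ℤ))) x := by
      rw [show 2 * -(n : ℤ) = 2 + 2 * (-(n : ℤ) - 1) by ring, zpow_add]
      rfl
    rw [e, ih] at this
    push_cast at *
    linarith

theorem Gen.Gz {x : ℂ} (h : Gen x) (n : ℤ) : Gen ((H97.VB.G ^ n) x) := by
  induction n using Int.induction_on with
  | zero => exact h
  | succ n ih => rw [add_comm, zpow_one_add]; exact ih.G
  | pred n ih =>
    refine ih.G.of false 0 [(4*(2 * (Par.m : ℤ) + 1))] fun j => ?_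
    have := l_GG j ((H97.VB.G ^ (-(n : ℤ) - 1)) x)
    rw [← IsometryEquiv.mul_apply H97.VB.G (_ ^ _), ← zpow_one_add, add_sub_cancel] at this
    simp only [Bool.false_eq_true, ↓reduceIte, add_zero, List.map, List.sum_cons, List.sum_nil]
    linarith [c_neg (k := j - (2 * (Par.m : ℤ) + 1)) (j := j - (4*(2 * (Par.m : ℤ) + 1))) (by ring)]

end

end Pool.Agent.H97.VB
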