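import Pool.Agent.H97.VB.A

namespace Pool.Agent.H97.VB

open Set

noncomputable section

variable [Par]

def K (x : ℂ) : Prop := ∀ j, (3*(2 * (Par.m : ℤ) + 1)) ≤ j → j ≤ (4*(2 * (Par.m : ℤ) + 1)-1) → l j x ≤ c 0 + c j

def K' (x : ℂ) : Prop := ∀ j, (3*(2 * (Par.m : ℤ) + 1)) ≤ j → j ≤ (4*(2 * (Par.m : ℤ) + 1)-1) → l j x < c 0 + c j

def T : Set ℂ := {x | l (5*(2 * (Par.m : ℤ) + 1)) x ≤ c 0 ∧ K x ∧ ¬K' (R x)}

variable {x : ℂ}

theorem K'.le (h : K' x) : K x := fun j a b => (h j a b).le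

theorem Gen.K (g : Gen x) (h : K x) : K' x := fun j a b =>
  (h j a b).lt_of_ne (by simpa using g j [j, 0])

theorem K.l30 (h : K x) : 0 ≤ l (6*(2 * (Par.m : ℤ) + 1)) x := by
  linarith [h (3*(2 * (Par.m : ℤ) + 1)) le_rfl (by omega), c15, l_neg (k := (6*(2 * (Par.m : ℤ) + 1))) (j := (3*(2 * (Par.m : ℤ) + 1))) (by omega) x]

theorem K.l31 (h : K (R x)) : 0 ≤ l (6*(2 * (Par.m : ℤ) + 1)+1) x := by simpa [l_R] using h.l30

theorem N0 (h : K (R x)) (e : l (3*(2 * (Par.m : ℤ) + 1)) x ≤ 0) : K x := fun j a b => by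
  rcases a.eq_or_lt with rfl | a
  · linarith [c15]
  · have := h (j - 1) (by omega) (by omega)
    rw [l_R, sub_add_cancel] at this
    linarith [c_inc (i := j - 1) (j := j) (by omega)]

theorem N0' (h : K (R x)) (e : l (3*(2 * (Par.m : ℤ) + 1)) x < 0) : K' x := fun j a b => by
  rcases a.eq_or_lt with rfl | a
  · linarith [c15]
  · have := h (j - 1) (by omega) (by omega)
    rw [l_R, sub_add_cancel] at this
    linarith [c_inc (i := j - 1) (j := j) (by omega)]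

theorem N1 (h : K (R x)) (e : 0 ≤ l (5*(2 * (Par.m : ℤ) + 1)) x) : K x :=
  N0 h (by linarith [mid e h.l31 (6*(2 * (Par.m : ℤ) + 1)) (by omega), l_neg (k := (6*(2 * (Par.m : ℤ) + 1))) (j := (3*(2 * (Par.m : ℤ) + 1))) (by omega) x])

theorem N2 (h : K (R x)) (e : 0 < l (5*(2 * (Par.m : ℤ) + 1)) x) : K' x :=
  N0' h (by linarith [midL e h.l31 (6*(2 * (Par.m : ℤ) + 1)) (by omega), l_neg (k := (6*(2 * (Par.m : ℤ) + 1))) (j := (3*(2 * (Par.m : ℤ) + 1))) (by omega) x])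

theorem N3 (h : K' (R x)) (e : 0 ≤ l (5*(2 * (Par.m : ℤ) + 1)) x) : K' x := by
  have : 0 < l (6*(2 * (Par.m : ℤ) + 1)+1) x := by
    have := h (3*(2 * (Par.m : ℤ) + 1)) le_rfl (by omega)
    rw [l_R] at this
    linarith [c15, l_neg (k := (6*(2 * (Par.m : ℤ) + 1)+1)) (j := (3*(2 * (Par.m : ℤ) + 1)) + 1) (by omega) x]
  exact N0' h.le (by linarith [midR e this (6*(2 * (Par.m : ℤ) + 1)) (by omega), l_neg (k := (6*(2 * (Par.m : ℤ) + 1))) (j := (3*(2 * (Par.m : ℤ) + 1))) (by omega) x])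

theorem out (h : ¬K' x) : ∃ j, (3*(2 * (Par.m : ℤ) + 1)) ≤ j ∧ j ≤ (4*(2 * (Par.m : ℤ) + 1)-1) ∧ c 0 + c j ≤ l j x := by
  simpa [K'] using h

theorem cone (h : x ∈ T) (j : ℤ) (a : (4*(2 * (Par.m : ℤ) + 1)) ≤ j ∧ j ≤ (6*(2 * (Par.m : ℤ) + 1))) : 0 ≤ l j x := by
  obtain ⟨i, b, d, e⟩ := out h.2.2
  rw [l_R] at e
  exact mid ((c_ge i).trans e) h.2.1.l30 j (by omega)

theorem cone' (h : x ∈ T) (ne : x ≠ 0) (j : ℤ) (a : (4*(2 * (Par.m : ℤ) + 1)+1) ≤ j ∧ j ≤ (6*(2 * (Par.m : ℤ) + 1)-1)) : 0 < l j x := by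
  obtain ⟨i, b, d, e⟩ := out h.2.2
  rw [l_R] at e
  rcases ((c_ge i).trans e).eq_or_lt with u | u
  · exact midR u.le (h.2.1.l30.lt_of_ne fun z => ne (zero_of u.symm z.symm (by omega))) j (by omega)
  · exact midL u h.2.1.l30 j (by omega)

theorem inD (h : x ∈ T) (j : ℤ) (a : (4*(2 * (Par.m : ℤ) + 1)) ≤ j ∧ j ≤ (6*(2 * (Par.m : ℤ) + 1)-1)) : l j x ≤ c 0 := by
  by_cases q : j ≤ (5*(2 * (Par.m : ℤ) + 1))
  · have u : 0 ≤ l (4*(2 * (Par.m : ℤ) + 1)-1) (E (2 * (5*(2 * (Par.m : ℤ) + 1))) - x) := by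
      rw [l_sub, l_E]
      have := h.2.1 (4*(2 * (Par.m : ℤ) + 1)-1) (by omega) le_rfl
      have := c5 (i := (4*(2 * (Par.m : ℤ) + 1)-1) - (5*(2 * (Par.m : ℤ) + 1))) (j := -1) (k := ((2 * (Par.m : ℤ) + 1)-1)) (by omega)
      have := c_neg (k := (4*(2 * (Par.m : ℤ) + 1)-1)) (j := ((2 * (Par.m : ℤ) + 1)-1)) (by omega)
      have := c_sym (k := -1) (j := 0) (by omega)
      linarith
    have v : 0 ≤ l (5*(2 * (Par.m : ℤ) + 1)) (E (2 * (5*(2 * (Par.m : ℤ) + 1))) - x) := by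
      rw [l_sub, l_E, sub_self, sub_nonneg]
      exact h.1
    have := mid u v j (by omega)
    rw [l_sub, l_E] at this
    linarith [c_le (j - (5*(2 * (Par.m : ℤ) + 1)))]
  · obtain ⟨i, b, d, e⟩ := out h.2.2
    rw [l_R] at e
    have u : 0 ≤ l (5*(2 * (Par.m : ℤ) + 1)) (E (2 * (5*(2 * (Par.m : ℤ) + 1)+1)) - x) := by
      rw [l_sub, l_E, c_sym (k := (5*(2 * (Par.m : ℤ) + 1)) - (5*(2 * (Par.m : ℤ) + 1)+1)) (j := 0) (by omega), sub_nonneg]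
      exact h.1
    have v : 0 ≤ l (i + (3*(2 * (Par.m : ℤ) + 1)+1)) (E (2 * (5*(2 * (Par.m : ℤ) + 1)+1)) - x) := by
      rw [l_sub, l_E, l_neg (j := i + 1) (by ring)]
      linarith [c5 (i := i + (3*(2 * (Par.m : ℤ) + 1)+1) - (5*(2 * (Par.m : ℤ) + 1)+1)) (j := i - (2 * (Par.m : ℤ) + 1)) (k := i) (by omega), c_ge (i - (2 * (Par.m : ℤ) + 1))]
    have := mid u v j (by omega)
    rw [l_sub, l_E] at this
    linarith [c_le (j - (5*(2 * (Par.m : ℤ) + 1)+1))]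

theorem Rs (k : ℕ) (x : ℂ) : (R ^ (k + 1)) x = R ((R ^ k) x) := by rw [pow_succ']; rfl

theorem desc {Q : ℂ → Prop} (h : ∀ y, Q (R y) → 0 ≤ l (5*(2 * (Par.m : ℤ) + 1)) y → Q y) {i k : ℕ} (ik : i ≤ k)
    (hc : ∀ j : ℕ, j < k → 0 ≤ l ((5*(2 * (Par.m : ℤ) + 1)) + j) x) (q : Q ((R ^ k) x)) : Q ((R ^ i) x) := by
  induction k, ik using Nat.le_induction with
  | base => exact q
  | succ k ik ih =>
    exact ih (fun j a => hc j (by omega)) (h _ (Rs k x ▸ q) (l_Rn k (5*(2 * (Par.m : ℤ) + 1)) x ▸ hc k (by omega)))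

theorem fan_cone {k : ℕ} (hk : k ≤ 2 * Par.m) (h : (R ^ k) x ∈ T) (j : ℕ) (a : j < (2 * Par.m + 1)) :
    0 ≤ l ((5*(2 * (Par.m : ℤ) + 1)) + j) x := by
  have := cone h ((5*(2 * (Par.m : ℤ) + 1)) + j - k) (by omega)
  rwa [l_Rn, sub_add_cancel] at this

theorem eG (j : ℤ) : l j (G x) - (c 0 + c j) =
    l ((7*(2 * (Par.m : ℤ) + 1)-1) - j) ((R ^ (2 * Par.m + 1)) x) - (c 0 + c ((7*(2 * (Par.m : ℤ) + 1)-1) - j)) := by
  rw [l_G, l_Rn, l_per (k := (7*(2 * (Par.m : ℤ) + 1)-1) - j + ((2 * Par.m + 1) : ℕ)) (j := (2*(2 * (Par.m : ℤ) + 1)-1) - j) (by push_cast; ring)]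
  have := c5 (i := j - (2*(2 * (Par.m : ℤ) + 1))) (j := j - (2 * (Par.m : ℤ) + 1)) (k := j) (by omega)
  have := c_sym (k := (7*(2 * (Par.m : ℤ) + 1)-1) - j) (j := j - (7*(2 * (Par.m : ℤ) + 1))) (by ring)
  have := c_neg (k := j - (2 * (Par.m : ℤ) + 1)) (j := j - (4*(2 * (Par.m : ℤ) + 1))) (by ring)
  have := c_neg (k := j - (4*(2 * (Par.m : ℤ) + 1))) (j := j - (7*(2 * (Par.m : ℤ) + 1))) (by ring)
  linarith

theorem eS (j : ℤ) : l j (R (S x)) - (c 0 + c j) = l ((7*(2 * (Par.m : ℤ) + 1)-1) - j) x - (c 0 + c ((7*(2 * (Par.m : ℤ) + 1)-1) - j)) := by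
  rw [l_R, l_S, l_per (k := (7*(2 * (Par.m : ℤ) + 1)-1) - j) (j := (2 * (Par.m : ℤ) + 1) - (j + 1)) (by ring)]
  have := c5 (i := j + 1 - (2*(2 * (Par.m : ℤ) + 1)+1)) (j := j - (2 * (Par.m : ℤ) + 1)) (k := j) (by omega)
  have := c_sym (k := (7*(2 * (Par.m : ℤ) + 1)-1) - j) (j := j - (7*(2 * (Par.m : ℤ) + 1))) (by ring)
  have := c_neg (k := j - (2 * (Par.m : ℤ) + 1)) (j := j - (4*(2 * (Par.m : ℤ) + 1))) (by ring)
  have := c_neg (k := j - (4*(2 * (Par.m : ℤ) + 1))) (j := j - (7*(2 * (Par.m : ℤ) + 1))) (by ring)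
  linarith

theorem eP (j : ℤ) : l j (R (P x)) - (c 0 + c j) = l (j + (2*(2 * (Par.m : ℤ) + 1))) x - c 0 := by
  rw [l_R, l_P, c_neg (k := j) (j := j + 1 - (3*(2 * (Par.m : ℤ) + 1)+1)) (by ring),
    show j + 1 + (2*(2 * (Par.m : ℤ) + 1)-1) = j + (2*(2 * (Par.m : ℤ) + 1)) by ring]
  ring

theorem KG : K (G x) ↔ K ((R ^ (2 * Par.m + 1)) x) :=
  ⟨fun h j a b => by have := eG (x := x) ((7*(2 * (Par.m : ℤ) + 1)-1) - j); rw [sub_sub_cancel] at this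
                     linarith [h ((7*(2 * (Par.m : ℤ) + 1)-1) - j) (by omega) (by omega)],
    fun h j a b => by linarith [h ((7*(2 * (Par.m : ℤ) + 1)-1) - j) (by omega) (by omega), eG (x := x) j]⟩

theorem KG' : K' (G x) ↔ K' ((R ^ (2 * Par.m + 1)) x) :=
  ⟨fun h j a b => by have := eG (x := x) ((7*(2 * (Par.m : ℤ) + 1)-1) - j); rw [sub_sub_cancel] at this
                     linarith [h ((7*(2 * (Par.m : ℤ) + 1)-1) - j) (by omega) (by omega)],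
    fun h j a b => by linarith [h ((7*(2 * (Par.m : ℤ) + 1)-1) - j) (by omega) (by omega), eG (x := x) j]⟩

theorem KS : K (R (S x)) ↔ K x :=
  ⟨fun h j a b => by have := eS (x := x) ((7*(2 * (Par.m : ℤ) + 1)-1) - j); rw [sub_sub_cancel] at this
                     linarith [h ((7*(2 * (Par.m : ℤ) + 1)-1) - j) (by omega) (by omega)],
    fun h j a b => by linarith [h ((7*(2 * (Par.m : ℤ) + 1)-1) - j) (by omega) (by omega), eS (x := x) j]⟩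

theorem KP : K (R (P x)) ↔ ∀ j, (5*(2 * (Par.m : ℤ) + 1)) ≤ j → j ≤ (6*(2 * (Par.m : ℤ) + 1)-1) → l j x ≤ c 0 :=
  ⟨fun h j a b => by have := eP (x := x) (j - (2*(2 * (Par.m : ℤ) + 1))); rw [sub_add_cancel] at this
                     linarith [h (j - (2*(2 * (Par.m : ℤ) + 1))) (by omega) (by omega)],
    fun h j a b => by linarith [h (j + (2*(2 * (Par.m : ℤ) + 1))) (by omega) (by omega), eP (x := x) j]⟩

theorem KP' : K' (R (P x)) ↔ ∀ j, (5*(2 * (Par.m : ℤ) + 1)) ≤ j → j ≤ (6*(2 * (Par.m : ℤ) + 1)-1) → l j x < c 0 :=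
  ⟨fun h j a b => by have := eP (x := x) (j - (2*(2 * (Par.m : ℤ) + 1))); rw [sub_add_cancel] at this
                     linarith [h (j - (2*(2 * (Par.m : ℤ) + 1))) (by omega) (by omega)],
    fun h j a b => by linarith [h (j + (2*(2 * (Par.m : ℤ) + 1))) (by omega) (by omega), eP (x := x) j]⟩

theorem l25S : l (5*(2 * (Par.m : ℤ) + 1)) (S x) = c 0 - l (5*(2 * (Par.m : ℤ) + 1)) x := by
  rw [l_S, l_neg (k := (5*(2 * (Par.m : ℤ) + 1))) (j := (2*(2 * (Par.m : ℤ) + 1))) (by omega), l_per (k := (2*(2 * (Par.m : ℤ) + 1))) (j := (2 * (Par.m : ℤ) + 1) - (5*(2 * (Par.m : ℤ) + 1))) (by omega),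
    c_neg (k := (5*(2 * (Par.m : ℤ) + 1)) - (2*(2 * (Par.m : ℤ) + 1)+1)) (j := -1) (by omega), c_sym (k := -1) (j := 0) (by omega)]
  ring

def F (y : ℂ) : Prop := K (R (P y)) ∧ K y ∧ ¬K' (G y)

theorem fan_F {k : ℕ} (hk : k ≤ 2 * Par.m) (h : (R ^ k) x ∈ T) : F x := by
  refine ⟨KP.mpr fun j a b => ?_,
    desc (i := 0) (fun _ => N1) (Nat.zero_le k) (fun j a => fan_cone hk h j (by omega)) h.2.1,
    fun q => h.2.2 (Rs k x ▸ desc (fun _ => N3) (by omega) (fan_cone hk h) (KG'.mp q))⟩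
  have := inD h (j - k) (by omega)
  rwa [l_Rn, sub_add_cancel] at this

omit [Par] in
theorem step {Q : ℕ → Prop} (h : Q 0) {n : ℕ} (h' : ¬Q n) : ∃ i < n, Q i ∧ ¬Q (i + 1) := by
  induction n with
  | zero => exact absurd h h'
  | succ n ih =>
    by_cases q : Q n
    · exact ⟨n, by omega, q, h'⟩
    · obtain ⟨i, a, b⟩ := ih q
      exact ⟨i, by omega, b⟩

theorem F_fan (a : K (R (P x))) (b : K x) (d : ¬K (G x)) : ∃ k ≤ 2 * Par.m, (R ^ k) x ∈ T := by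
  obtain ⟨k, hk, u, v⟩ := step (Q := fun k => K ((R ^ k) x)) b (mt KG.mpr d)
  exact ⟨k, by omega, l_Rn k (5*(2 * (Par.m : ℤ) + 1)) x ▸ KP.mp a _ (by omega) (by omega), u, fun q => v (Rs k x ▸ q.le)⟩

def h (y : ℂ) : ℝ := l (5*(2 * (Par.m : ℤ) + 1)) (P y)

theorem h_eq (y : ℂ) : h y = l ((2 * (Par.m : ℤ) + 1)-1) y - c (2*(2 * (Par.m : ℤ) + 1)-1) := by
  rw [h, l_P, l_per (k := (5*(2 * (Par.m : ℤ) + 1)) + (2*(2 * (Par.m : ℤ) + 1)-1)) (j := ((2 * (Par.m : ℤ) + 1)-1)) (by omega),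
    show (5*(2 * (Par.m : ℤ) + 1)) - (3*(2 * (Par.m : ℤ) + 1)+1) = (2*(2 * (Par.m : ℤ) + 1)-1) by ring]

theorem h_G2 (n : ℤ) (y : ℂ) : h ((G ^ (2 * n)) y) = h y - n * c 0 := by
  rw [h_eq, h_eq, l_G2, c_sym (k := ((2 * (Par.m : ℤ) + 1)-1) - (2 * (Par.m : ℤ) + 1)) (j := 0) (by omega)]
  ring

theorem K.h (q : K x) : h x = c 0 + c (4*(2 * (Par.m : ℤ) + 1)-1) - l (4*(2 * (Par.m : ℤ) + 1)-1) x ∧ 0 ≤ h x := by
  have := q (4*(2 * (Par.m : ℤ) + 1)-1) (by omega) le_rfl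
  have := c5 (i := (2*(2 * (Par.m : ℤ) + 1)-1)) (j := (3*(2 * (Par.m : ℤ) + 1)-1)) (k := (4*(2 * (Par.m : ℤ) + 1)-1)) (by omega)
  have := c_neg (k := (3*(2 * (Par.m : ℤ) + 1)-1)) (j := -1) (by omega)
  have := c_sym (k := -1) (j := 0) (by omega)
  have := l_neg (k := (4*(2 * (Par.m : ℤ) + 1)-1)) (j := ((2 * (Par.m : ℤ) + 1)-1)) (by omega) x
  rw [h_eq]
  constructor <;> linarith

theorem outG (q : ¬K' (G x)) : ∃ i, (4*(2 * (Par.m : ℤ) + 1)) ≤ i ∧ i ≤ (5*(2 * (Par.m : ℤ) + 1)-1) ∧ c 0 + c (i - (2 * (Par.m : ℤ) + 1)) ≤ l i x ∧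
    0 ≤ l i (x - 1) := by
  obtain ⟨i, a, b, d⟩ := out (mt KG'.mpr q)
  rw [l_Rn] at d
  refine ⟨i + (2 * (Par.m : ℤ) + 1), by omega, by omega, by simpa using d, ?_⟩
  rw [l_sub, l_one]
  push_cast at d
  linarith [c5 (i := i) (j := i + (2 * (Par.m : ℤ) + 1)) (k := i + (2*(2 * (Par.m : ℤ) + 1))) (by omega), c_ge (i + (2*(2 * (Par.m : ℤ) + 1)) + (3*(2 * (Par.m : ℤ) + 1))),
    c_neg (k := i + (2*(2 * (Par.m : ℤ) + 1)) + (3*(2 * (Par.m : ℤ) + 1))) (j := i + (2*(2 * (Par.m : ℤ) + 1))) (by omega)]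

theorem c29 : c (6*(2 * (Par.m : ℤ) + 1)-1) = c 0 := by
  rw [c_neg (k := (6*(2 * (Par.m : ℤ) + 1)-1)) (j := (3*(2 * (Par.m : ℤ) + 1)-1)) (by omega), c_neg (k := (3*(2 * (Par.m : ℤ) + 1)-1)) (j := -1) (by omega), c_sym (k := -1) (j := 0) (by omega),
    neg_neg]

theorem F.top (q : F x) (j : ℤ) (a : (6*(2 * (Par.m : ℤ) + 1)-1) ≤ j ∧ j ≤ (7*(2 * (Par.m : ℤ) + 1))) : l j x ≤ c j := by
  obtain ⟨i, b, d, -, e⟩ := outG q.2.2
  have u : 0 ≤ l (6*(2 * (Par.m : ℤ) + 1)-1) (1 - x) := by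
    rw [l_sub, l_one, c29, sub_nonneg]
    exact KP.mp q.1 _ (by omega) le_rfl
  have v : 0 ≤ l (i + (3*(2 * (Par.m : ℤ) + 1))) (1 - x) := by
    rw [l_neg rfl, l_sub]
    rw [l_sub] at e
    linarith
  have := mid u v j (by omega)
  rwa [l_sub, l_one, sub_nonneg] at this

theorem c34 : c (7*(2 * (Par.m : ℤ) + 1)-1) = c 0 + c (2*(2 * (Par.m : ℤ) + 1)-1) := by
  linarith [c5 (i := (6*(2 * (Par.m : ℤ) + 1)-1)) (j := (7*(2 * (Par.m : ℤ) + 1)-1)) (k := (8*(2 * (Par.m : ℤ) + 1)-1)) (by omega), c29, c_neg (k := (8*(2 * (Par.m : ℤ) + 1)-1)) (j := (5*(2 * (Par.m : ℤ) + 1)-1)) (by omega),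
    c_neg (k := (5*(2 * (Par.m : ℤ) + 1)-1)) (j := (2*(2 * (Par.m : ℤ) + 1)-1)) (by omega)]

theorem F.h (q : F x) : 0 ≤ h x ∧ h x ≤ c 0 := by
  refine ⟨q.2.1.h.2, ?_⟩
  have := q.top (7*(2 * (Par.m : ℤ) + 1)-1) (by omega)
  rw [h_eq, ← l_per (k := (7*(2 * (Par.m : ℤ) + 1)-1)) (j := ((2 * (Par.m : ℤ) + 1)-1)) (by omega)]
  linarith [c34]

theorem F.nu (q : F x) : 0 ≤ l (5*(2 * (Par.m : ℤ) + 1)+Par.m) x := by
  obtain ⟨i, b, d, e, -⟩ := outG q.2.2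
  exact mid ((c_ge _).trans e) q.2.1.l30 (5*(2 * (Par.m : ℤ) + 1)+Par.m) (by omega)

theorem nu_G (y : ℂ) : l (5*(2 * (Par.m : ℤ) + 1)+Par.m) (G y) = c (Par.m:ℤ) - l (5*(2 * (Par.m : ℤ) + 1)+Par.m) y := by
  rw [l_G, l_neg (k := (5*(2 * (Par.m : ℤ) + 1)+Par.m)) (j := (2*(2 * (Par.m : ℤ) + 1)+Par.m)) (by omega), l_per (k := (2*(2 * (Par.m : ℤ) + 1)+Par.m)) (j := (2*(2 * (Par.m : ℤ) + 1)-1) - (5*(2 * (Par.m : ℤ) + 1)+Par.m)) (by omega),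
    c_neg (k := (5*(2 * (Par.m : ℤ) + 1)+Par.m) - (2*(2 * (Par.m : ℤ) + 1))) (j := (Par.m:ℤ)) (by omega)]
  ring

theorem nu_G2 (n : ℤ) (y : ℂ) : l (5*(2 * (Par.m : ℤ) + 1)+Par.m) ((G ^ (2 * n)) y) = l (5*(2 * (Par.m : ℤ) + 1)+Par.m) y := by
  rw [l_G2, c_neg (k := (5*(2 * (Par.m : ℤ) + 1)+Par.m) - (2 * (Par.m : ℤ) + 1)) (j := (3*(Par.m:ℤ)+1)) (by omega), c7]
  ring

theorem c27 : c (5*(2 * (Par.m : ℤ) + 1)+Par.m) = c (Par.m:ℤ) := by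
  rw [c_neg (k := (5*(2 * (Par.m : ℤ) + 1)+Par.m)) (j := (2*(2 * (Par.m : ℤ) + 1)+Par.m)) (by omega), c_neg (k := (2*(2 * (Par.m : ℤ) + 1)+Par.m)) (j := -1-(Par.m:ℤ)) (by omega), c_sym (k := -1-(Par.m:ℤ)) (j := (Par.m:ℤ)) (by omega),
    neg_neg]

theorem right_nu (a : 0 ≤ h x) (b : h x ≤ c 0) (q : ¬K' (R (P x))) : c (Par.m:ℤ) ≤ l (5*(2 * (Par.m : ℤ) + 1)+Par.m) x := by
  obtain ⟨j, u, v, w⟩ : ∃ j, (5*(2 * (Par.m : ℤ) + 1)) ≤ j ∧ j ≤ (6*(2 * (Par.m : ℤ) + 1)-1) ∧ c 0 ≤ l j x := by simpa [KP'] using q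
  rw [h_eq] at a b
  by_cases e : j ≤ (5*(2 * (Par.m : ℤ) + 1)+Par.m)
  · have p : 0 ≤ l j (x - E (2 * (5*(2 * (Par.m : ℤ) + 1)))) := by
      rw [l_sub, l_E]
      linarith [c_le (j - (5*(2 * (Par.m : ℤ) + 1)))]
    have r : 0 ≤ l (7*(2 * (Par.m : ℤ) + 1)-1) (x - E (2 * (5*(2 * (Par.m : ℤ) + 1)))) := by
      rw [l_sub, l_E, l_per (k := (7*(2 * (Par.m : ℤ) + 1)-1)) (j := ((2 * (Par.m : ℤ) + 1)-1)) (by omega),
        show (7*(2 * (Par.m : ℤ) + 1)-1) - (5*(2 * (Par.m : ℤ) + 1)) = (2*(2 * (Par.m : ℤ) + 1)-1) by ring]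
      exact a
    have := mid p r (5*(2 * (Par.m : ℤ) + 1)+Par.m) (by omega)
    rwa [l_sub, l_E, sub_nonneg, show (5*(2 * (Par.m : ℤ) + 1)+Par.m) - (5*(2 * (Par.m : ℤ) + 1)) = (Par.m:ℤ) by ring] at this
  · have p : 0 ≤ l j (x - 1) := by
      rw [l_sub, l_one]
      linarith [c_le j]
    have r : 0 ≤ l (4*(2 * (Par.m : ℤ) + 1)-1) (x - 1) := by
      rw [l_sub, l_one, l_neg (k := (4*(2 * (Par.m : ℤ) + 1)-1)) (j := ((2 * (Par.m : ℤ) + 1)-1)) (by omega)]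
      linarith [c34, c_neg (k := (7*(2 * (Par.m : ℤ) + 1)-1)) (j := (4*(2 * (Par.m : ℤ) + 1)-1)) (by omega)]
    have := mid r p (5*(2 * (Par.m : ℤ) + 1)+Par.m) (by omega)
    rwa [l_sub, l_one, sub_nonneg, c27] at this

theorem Ss (k : ℕ) (x : ℂ) : (S ^ (k + 1)) x = S ((S ^ k) x) := by rw [pow_succ']; rfl

theorem row (k : ℕ) : (0 ≤ l (5*(2 * (Par.m : ℤ) + 1)) ((S ^ k) x) ∧ l (5*(2 * (Par.m : ℤ) + 1)) ((S ^ k) x) ≤ c 0) ↔
    (0 ≤ l (5*(2 * (Par.m : ℤ) + 1)) x ∧ l (5*(2 * (Par.m : ℤ) + 1)) x ≤ c 0) := by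
  induction k with
  | zero => rfl
  | succ k ih => rw [Ss, l25S, ← ih]; constructor <;> rintro ⟨a, b⟩ <;> constructor <;> linarith

theorem asc (a : 0 ≤ l (5*(2 * (Par.m : ℤ) + 1)) x ∧ l (5*(2 * (Par.m : ℤ) + 1)) x ≤ c 0) {i k : ℕ} (ik : i ≤ k) (q : K (R ((S ^ i) x))) :
    K (R ((S ^ k) x)) := by
  induction k, ik using Nat.le_induction with
  | base => exact q
  | succ k ik ih => exact Ss k x ▸ KS.mpr (N1 ih ((row k).mpr a).1)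

def U : Fin (2 * Par.m + 1) ⊕ ℕ → ℂ ≃ᵢ ℂ
  | .inl k => R ^ k.1
  | .inr j => S ^ j * P

theorem right_row {j : ℕ} (q : (S ^ j) (P x) ∈ T) : 0 ≤ h x ∧ h x ≤ c 0 :=
  (row j).mp ⟨cone q (5*(2 * (Par.m : ℤ) + 1)) (by omega), q.1⟩

theorem right_out (g : Gen x) {j : ℕ} (q : (S ^ j) (P x) ∈ T) : ¬K (R (P x)) := fun e =>
  q.2.2 ((g.P.pow (fun _ => Gen.S) j).R.K (asc (right_row q) (Nat.zero_le j) e))

theorem U_h (g : Gen x) {t} (q : U t x ∈ T) : 0 < h x ∧ h x < c 0 := by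
  have : 0 ≤ h x ∧ h x ≤ c 0 := by
    rcases t with k | j
    exacts [(fan_F (by omega) q).h, right_row q]
  exact ⟨this.1.lt_of_ne' (by simpa [h] using g.P (5*(2 * (Par.m : ℤ) + 1)) []), this.2.lt_of_ne (by simpa [h] using g.P (5*(2 * (Par.m : ℤ) + 1)) [(5*(2 * (Par.m : ℤ) + 1))])⟩

theorem U_nu (g : Gen x) {j} (q : U (.inr j) x ∈ T) : c (Par.m:ℤ) < l (5*(2 * (Par.m : ℤ) + 1)+Par.m) x :=
  (right_nu (right_row q).1 (right_row q).2 fun e => right_out g q e.le).lt_of_ne'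
    (by simpa using g (5*(2 * (Par.m : ℤ) + 1)+Par.m) [(5*(2 * (Par.m : ℤ) + 1))])

theorem U_nu0 (g : Gen x) {t} (q : U t x ∈ T) : 0 ≤ l (5*(2 * (Par.m : ℤ) + 1)+Par.m) x := by
  rcases t with k | j
  · exact (fan_F (by omega) q).nu
  · linarith [U_nu g q, c7, c_dec (i := (Par.m:ℤ)) (j := (3*(Par.m:ℤ)+1)) (by omega)]

theorem uniq0 (g : Gen x) {t t'} (a : U t x ∈ T) (b : U t' x ∈ T) : t = t' := by
  have f : ∀ i k : Fin (2 * Par.m + 1), (R ^ i.1) x ∈ T → (R ^ k.1) x ∈ T → ¬i < k := fun i k a b ik =>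
    a.2.2 ((g.pow (fun _ => Gen.R) _).R.K (Rs i x ▸ desc (fun _ => N1) (show i.1 + 1 ≤ k from ik)
      (fun j _ => fan_cone (by omega) b j (by omega)) b.2.1))
  have r : ∀ i k : ℕ, (S ^ i) (P x) ∈ T → (S ^ k) (P x) ∈ T → ¬i < k := fun i k a b ik =>
    b.2.2 ((g.P.pow (fun _ => Gen.S) k).R.K (asc (right_row a) (show i + 1 ≤ k from ik)
      (Ss i _ ▸ KS.mpr a.2.1)))
  rcases t with i | i <;> rcases t' with k | k
  · exact congrArg _ (le_antisymm (not_lt.mp (f _ _ b a)) (not_lt.mp (f _ _ a b)))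
  · exact absurd (fan_F (by omega) a).1 (right_out g b)
  · exact absurd (fan_F (by omega) b).1 (right_out g a)
  · exact congrArg _ (le_antisymm (not_lt.mp (r _ _ b a)) (not_lt.mp (r _ _ a b)))

theorem uniq1 (g : Gen x) {t t'} {d : ℤ} (hd : 0 < d) (a : U t x ∈ T) (b : U t' ((G ^ d) x) ∈ T) :
    False := by
  have g' := g.Gz d
  rcases Int.even_or_odd' d with ⟨e, rfl | rfl⟩
  · have u := U_h g a
    have v := U_h g' b
    have : (1 : ℝ) ≤ e := by exact_mod_cast (show 1 ≤ e by omega)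
    rw [h_G2] at v
    nlinarith [c_pos]
  · have n : l (5*(2 * (Par.m : ℤ) + 1)+Par.m) ((G ^ (2 * e + 1)) x) = c (Par.m:ℤ) - l (5*(2 * (Par.m : ℤ) + 1)+Par.m) x := by
      rw [show 2 * e + 1 = 1 + 2 * e by ring, zpow_one_add, IsometryEquiv.mul_apply, nu_G, nu_G2]
    rcases t with i | i
    · rcases t' with k | k
      · have u := fan_F (by omega) a
        have v := (fan_F (by omega) b).2.1
        rw [show 2 * e + 1 = 1 + 2 * e by ring, zpow_one_add, IsometryEquiv.mul_apply] at v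
        rcases (show 0 ≤ e by omega).eq_or_lt with rfl | he
        · exact u.2.2 (g.G.K v)
        · have p := v (4*(2 * (Par.m : ℤ) + 1)-1) (by omega) le_rfl
          have : (1 : ℝ) ≤ e := by exact_mod_cast he
          rw [l_G, l_G2, ← l_per (k := (4*(2 * (Par.m : ℤ) + 1))) (j := (2*(2 * (Par.m : ℤ) + 1)-1) - (4*(2 * (Par.m : ℤ) + 1)-1)) (by omega), l_neg (k := (4*(2 * (Par.m : ℤ) + 1))) (j := (2 * (Par.m : ℤ) + 1)) (by omega)] at p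
          have r := u.top (7*(2 * (Par.m : ℤ) + 1)) (by omega)
          rw [l_per (k := (7*(2 * (Par.m : ℤ) + 1))) (j := (2 * (Par.m : ℤ) + 1)) (by omega)] at r
          have := c5 (i := (4*(2 * (Par.m : ℤ) + 1)-1) - (2*(2 * (Par.m : ℤ) + 1))) (j := (3*(2 * (Par.m : ℤ) + 1)-1)) (k := (4*(2 * (Par.m : ℤ) + 1)-1)) (by omega)
          have := c_neg (k := (3*(2 * (Par.m : ℤ) + 1)-1)) (j := -1) (by omega)
          have := c_sym (k := -1) (j := 0) (by omega)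
          have := c_neg (k := 0) (j := (2*(2 * (Par.m : ℤ) + 1)-1) - (4*(2 * (Par.m : ℤ) + 1)-1) - (2 * (Par.m : ℤ) + 1)) (by omega)
          have := c_neg (k := (7*(2 * (Par.m : ℤ) + 1))) (j := (4*(2 * (Par.m : ℤ) + 1))) (by omega)
          have := c_inc (i := (3*(2 * (Par.m : ℤ) + 1))) (j := (4*(2 * (Par.m : ℤ) + 1))) (by omega)
          nlinarith [c15, c_pos]
      · linarith [U_nu g' b, U_nu0 g a]
    · linarith [U_nu g a, U_nu0 g' b]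

theorem uniq (g : Gen x) {t t'} {m n : ℤ} (a : U t ((G ^ m) x) ∈ T) (b : U t' ((G ^ n) x) ∈ T) :
    m = n ∧ t = t' := by
  have e : ∀ m n : ℤ, (G ^ n) x = (G ^ (n - m)) ((G ^ m) x) := fun m n => by
    rw [← IsometryEquiv.mul_apply, ← zpow_add, sub_add_cancel]
  rcases lt_trichotomy m n with q | rfl | q
  · exact (uniq1 (g.Gz m) (sub_pos.mpr q) a (e m n ▸ b)).elim
  · exact ⟨rfl, uniq0 (g.Gz m) a b⟩
  · exact (uniq1 (g.Gz n) (sub_pos.mpr q) b (e n m ▸ a)).elim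

theorem ev (u δ : ℤ → ℝ) (hδ : ∀ j, (3*(2 * (Par.m : ℤ) + 1)) ≤ j → j ≤ (4*(2 * (Par.m : ℤ) + 1)-1) → 0 < δ j) :
    ∃ n : ℕ, ∀ j, (3*(2 * (Par.m : ℤ) + 1)) ≤ j → j ≤ (4*(2 * (Par.m : ℤ) + 1)-1) → u j < n * δ j := by
  have : ∀ᶠ n : ℕ in Filter.atTop, ∀ j ∈ Icc ((3*(2 * (Par.m : ℤ) + 1)) : ℤ) (4*(2 * (Par.m : ℤ) + 1)-1), u j < n * δ j :=
    (Filter.eventually_all_finite (finite_Icc _ _)).mpr fun j hj =>
      (tendsto_natCast_atTop_atTop.atTop_mul_const (hδ j hj.1 hj.2)).eventually_gt_atTop _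
  obtain ⟨n, hn⟩ := this.exists
  exact ⟨n, fun j a b => hn j ⟨a, b⟩⟩

theorem l_S2 (n : ℕ) (j : ℤ) : l j ((S ^ (2 * n)) x) = l j x - n * (c (j + (2 * (Par.m : ℤ) + 1)) - c (j + ((2 * (Par.m : ℤ) + 1)-1))) := by
  induction n with
  | zero => simp
  | succ n ih =>
    rw [mul_add, mul_one, Ss, Ss, l_S, l_S, sub_sub_cancel, ih,
      c_sym (k := (2 * (Par.m : ℤ) + 1) - j - (2*(2 * (Par.m : ℤ) + 1)+1)) (j := j + (2 * (Par.m : ℤ) + 1)) (by ring), c_neg (k := j + ((2 * (Par.m : ℤ) + 1)-1)) (j := j - (2*(2 * (Par.m : ℤ) + 1)+1)) (by ring)]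
    push_cast
    ring

theorem cover (x : ℂ) : ∃ (n : ℤ) (t : _), U t ((G ^ n) x) ∈ T := by
  have rw : ∀ e : ℤ, ∃ k : ℤ, 0 ≤ h ((G ^ (2 * k + e)) x) ∧ h ((G ^ (2 * k + e)) x) < c 0 := fun e => by
    refine ⟨⌊h ((G ^ e) x) / c 0⌋, ?_⟩
    rw [zpow_add, IsometryEquiv.mul_apply, h_G2]
    exact ⟨Int.sub_floor_div_mul_nonneg _ c_pos, Int.sub_floor_div_mul_lt _ c_pos⟩
  by_cases q : ∀ n : ℤ, 0 ≤ h ((G ^ n) x) → h ((G ^ n) x) < c 0 → K (R (P ((G ^ n) x)))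
  · obtain ⟨m, hm⟩ := ev (fun j => l j x - (c 0 + c j)) (fun j => -c (j - (2 * (Par.m : ℤ) + 1))) fun j a b => by
      linarith [c7, c_dec (i := (3*(Par.m:ℤ)+1)) (j := j - (2 * (Par.m : ℤ) + 1)) (by omega)]
    obtain ⟨n, hn⟩ := ev (fun j => c 0 + c j - l j x) (fun j => -c (j - (2 * (Par.m : ℤ) + 1))) fun j a b => by
      linarith [c7, c_dec (i := (3*(Par.m:ℤ)+1)) (j := j - (2 * (Par.m : ℤ) + 1)) (by omega)]
    obtain ⟨i, -, a, b⟩ := step (Q := fun i => K ((G ^ (i - 2 * m : ℤ)) x)) (n := 2 * m + 2 * n)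
      (fun j a b => by
        rw [show ((0 : ℕ) - 2 * m : ℤ) = 2 * (-m) by simp, l_G2]
        push_cast
        linarith [hm j a b])
      fun p => by
        have := p (3*(2 * (Par.m : ℤ) + 1)) le_rfl (by omega)
        rw [show ((2 * m + 2 * n : ℕ) - 2 * m : ℤ) = 2 * n by push_cast; ring, l_G2,
          Int.cast_natCast] at this
        linarith [hn (3*(2 * (Par.m : ℤ) + 1)) le_rfl (by omega)]
    rw [show ((i + 1 : ℕ) - 2 * m : ℤ) = 1 + (i - 2 * m) by push_cast; ring, zpow_one_add,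
      IsometryEquiv.mul_apply] at b
    obtain ⟨k, u, v⟩ := rw (i - 2 * m)
    have w := q _ u v
    rw [zpow_add, IsometryEquiv.mul_apply] at u v w
    obtain rfl : k = 0 := by
      generalize (G ^ (i - 2 * m : ℤ)) x = y at *
      rcases lt_trichotomy k 0 with e | e | e
      · have : (k : ℝ) ≤ -1 := by exact_mod_cast (show k ≤ -1 by omega)
        rw [h_G2] at v
        nlinarith [a.h.2, c_pos]
      · exact e
      · refine (b (KG.mpr fun j d f => ?_)).elim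
        have : (1 : ℝ) ≤ k := by exact_mod_cast e
        have p : 0 ≤ l (7*(2 * (Par.m : ℤ) + 1)-1) ((G ^ (2 * k)) y - E (2 * (5*(2 * (Par.m : ℤ) + 1)))) := by
          rw [l_sub, l_E, l_per (k := (7*(2 * (Par.m : ℤ) + 1)-1)) (j := ((2 * (Par.m : ℤ) + 1)-1)) (by omega),
            show (7*(2 * (Par.m : ℤ) + 1)-1) - (5*(2 * (Par.m : ℤ) + 1)) = (2*(2 * (Par.m : ℤ) + 1)-1) by ring, ← h_eq]
          exact u
        have r : 0 ≤ l (8*(2 * (Par.m : ℤ) + 1)) ((G ^ (2 * k)) y - E (2 * (5*(2 * (Par.m : ℤ) + 1)))) := by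
          rw [l_neg (k := (8*(2 * (Par.m : ℤ) + 1))) (j := (5*(2 * (Par.m : ℤ) + 1))) (by omega), l_sub, l_E, sub_self]
          linarith [KP.mp w (5*(2 * (Par.m : ℤ) + 1)) le_rfl (by omega)]
        have z := mid p r (j + (4*(2 * (Par.m : ℤ) + 1))) (by omega)
        rw [l_neg (j := j + (2 * (Par.m : ℤ) + 1)) (by ring), l_sub, l_E, l_G2, add_sub_cancel_right] at z
        rw [l_Rn]
        push_cast
        have : c j < 0 := by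
          linarith [c_inc (i := j) (j := (3*(2 * (Par.m : ℤ) + 1)+(3*(Par.m:ℤ)+1))) (by omega), c_neg (k := (3*(2 * (Par.m : ℤ) + 1)+(3*(Par.m:ℤ)+1))) (j := (3*(Par.m:ℤ)+1)) (by ring), c7]
        nlinarith [c_le (j + (2 * (Par.m : ℤ) + 1) - (5*(2 * (Par.m : ℤ) + 1)))]
    obtain ⟨k, hk, p⟩ := F_fan w a b
    exact ⟨_, .inl ⟨k, by omega⟩, p⟩
  · push Not at q
    obtain ⟨n, a, b, d⟩ := q
    obtain ⟨m, hm⟩ := ev (fun j => l (j + 1) (P ((G ^ n) x)) - (c 0 + c j))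
      (fun j => c (j + 1 + (2 * (Par.m : ℤ) + 1)) - c (j + 1 + ((2 * (Par.m : ℤ) + 1)-1))) fun j a b => sub_pos.mpr (c_inc (by omega))
    obtain ⟨i, -, u, v⟩ := step (Q := fun i => ¬K (R ((S ^ i) (P ((G ^ n) x))))) (n := 2 * m) d
      (not_not.mpr fun j a b => by
        rw [l_R, l_S2]
        linarith [hm j a b])
    exact ⟨n, .inr i, ((row i).mpr ⟨a, b.le⟩).2, KS.mp (Ss i _ ▸ not_not.mp v), fun p => u p.le⟩

end

end Pool.Agent.H97.VB
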