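import Pool.Agent.H97.VB.B

namespace Pool.Agent.H97.VB

open Set Metric Complex

variable [Par]

omit [Par] in
theorem between {f g : ℝ → ℝ} (hf : Continuous f) (hg : Continuous g) {a : ℝ} (ha : 0 < a)
    (e : g 0 = f 0) (lt : ∀ h, 0 < h → h ≤ a → g h < f h) (B : Set ℂ)
    (hB : B = {w | 0 ≤ w.re ∧ w.re ≤ a ∧ g w.re ≤ w.im ∧ w.im ≤ f w.re}) :
    Nonempty (B ≃ₜ closedBall (0 : ℂ) 1) ∧ B ⊆ closure (interior B) := by
  let D : Set ℂ := {w | 0 ≤ w.im ∧ w.im ≤ w.re ∧ w.re ≤ a}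
  let O : Set ℂ := {w | 0 < w.im ∧ w.im < w.re ∧ w.re < a}
  let ψ : ℂ → ℂ := fun w => ⟨w.re, g w.re + w.im / w.re * (f w.re - g w.re)⟩
  have cD : IsClosed D := by
    simp only [D, ofPred_and]
    refine .inter ?_ (.inter ?_ ?_) <;> exact isClosed_le (by fun_prop) (by fun_prop)
  have oO : IsOpen O := by
    simp only [O, ofPred_and]
    refine .inter ?_ (.inter ?_ ?_) <;> exact isOpen_lt (by fun_prop) (by fun_prop)
  have bD : Bornology.IsBounded D := (isBounded_closedBall (x := (0 : ℂ)) (r := 2 * a)).subset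
    fun w ⟨x, y, z⟩ => by
      rw [mem_closedBall_zero_iff]
      refine (norm_le_abs_re_add_abs_im w).trans ?_
      rw [abs_of_nonneg x, abs_of_nonneg (x.trans y)]
      linarith
  have vD : Convex ℝ D := fun p ⟨x, y, z⟩ q ⟨x', y', z'⟩ u v hu hv uv => by
    obtain rfl : v = 1 - u := by linarith
    simp only [D, mem_ofPred_eq, add_re, add_im, real_smul, re_ofReal_mul, im_ofReal_mul]
    refine ⟨by positivity, ?_, ?_⟩ <;> nlinarith
  have vO : Convex ℝ O := fun p ⟨x, y, z⟩ q ⟨x', y', z'⟩ u v hu hv uv => by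
    obtain rfl : v = 1 - u := by linarith
    simp only [O, mem_ofPred_eq, add_re, add_im, real_smul, re_ofReal_mul, im_ofReal_mul]
    rcases hu.eq_or_lt with rfl | hu
    · simpa using ⟨x', y', z'⟩
    · refine ⟨?_, ?_, ?_⟩ <;> nlinarith
  have iD : O ⊆ interior D := interior_maximal (fun w ⟨x, y, z⟩ => ⟨x.le, y.le, z.le⟩) oO
  have p0 : (⟨a / 2, a / 4⟩ : ℂ) ∈ O := ⟨by simp; linarith, by simp; linarith, by simp; linarith⟩
  have fr : ∀ w ∈ D, 0 ≤ w.im / w.re ∧ w.im / w.re ≤ 1 := fun w ⟨x, y, z⟩ =>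
    ⟨div_nonneg x (x.trans y), div_le_one_of_le₀ y (x.trans y)⟩
  have le : ∀ h, 0 ≤ h → h ≤ a → g h ≤ f h := fun h x y => by
    rcases x.eq_or_lt with rfl | x
    exacts [e.le, (lt h x y).le]
  have cψ : ContinuousOn ψ D := by
    have : ContinuousOn (fun w : ℂ => w.im / w.re * (f w.re - g w.re)) D := fun w hw => by
      by_cases q : w.re = 0
      · rw [ContinuousWithinAt, q, e, sub_self, mul_zero]
        refine squeeze_zero_norm' (a := fun w => |f w.re - g w.re|)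
          (eventually_nhdsWithin_of_forall fun v hv => ?_) ?_
        · rw [norm_mul, Real.norm_of_nonneg (fr v hv).1]
          exact mul_le_of_le_one_left (abs_nonneg _) (fr v hv).2
        · have : Continuous fun w : ℂ => |f w.re - g w.re| := by fun_prop
          have := (this.tendsto w).mono_left (nhdsWithin_le_nhds (s := D))
          rwa [q, e, sub_self, abs_zero] at this
      · exact ContinuousAt.continuousWithinAt (by fun_prop (disch := exact q))
    have e : ψ = fun w => (w.re : ℂ) + (g w.re + w.im / w.re * (f w.re - g w.re) : ℝ) * I := by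
      ext w
      exact mk_eq_add_mul_I _ _
    rw [e]
    refine ContinuousOn.add (by fun_prop) (ContinuousOn.mul
      (continuous_ofReal.comp_continuousOn (ContinuousOn.add (by fun_prop) this)) (by fun_prop))
  have bij : BijOn ψ D B := by
    refine ⟨fun w hw => hB ▸ ⟨hw.1.trans hw.2.1, hw.2.2, ?_, ?_⟩, fun v hv w hw q => ?_,
      fun w hw => ?_⟩
    · exact le_add_of_nonneg_right (mul_nonneg (fr w hw).1
        (sub_nonneg.mpr (le _ (hw.1.trans hw.2.1) hw.2.2)))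
    · have := mul_le_of_le_one_left (sub_nonneg.mpr (le _ (hw.1.trans hw.2.1) hw.2.2)) (fr w hw).2
      simp only [ψ]
      linarith
    · have r : v.re = w.re := (congrArg re q :)
      have i := congrArg im q
      simp only [ψ, r, add_right_inj] at i
      refine Complex.ext r ?_
      rcases (hw.1.trans hw.2.1).eq_or_lt with z | z
      · linarith [hv.1, hv.2.1, hw.1, hw.2.1]
      · exact (div_left_inj' z.ne').mp
          (mul_right_cancel₀ (sub_pos.mpr (lt _ z hw.2.2)).ne' i)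
    · obtain ⟨x, y, z, t⟩ := hB ▸ hw
      rcases x.eq_or_lt with x | x
      · refine ⟨0, ⟨le_rfl, le_rfl, ha.le⟩, Complex.ext x ?_⟩
        rw [← x] at z t
        simp [ψ]
        linarith
      · have := sub_pos.mpr (lt _ x y)
        refine ⟨⟨w.re, w.re * ((w.im - g w.re) / (f w.re - g w.re))⟩,
          ⟨mul_nonneg x.le (div_nonneg (by linarith) this.le),
            mul_le_of_le_one_right x.le (div_le_one_of_le₀ (by linarith) this.le), y⟩,
          Complex.ext rfl ?_⟩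
        simp only [ψ]
        field_simp
        ring
  constructor
  · have : CompactSpace D := isCompact_iff_compactSpace.mp (isCompact_of_isClosed_isBounded cD bD)
    obtain ⟨φ, -, h, -⟩ := exists_homeomorph_image_interior_closure_frontier_eq_unitBall vD
      ⟨_, iD p0⟩ bD
    rw [cD.closure_eq] at h
    exact ⟨(Continuous.homeoOfEquivCompactToT2 (f := bij.equiv ψ)
      (cψ.domRestrict.subtype_mk _)).symm.trans (h ▸ φ.image _)⟩
  · have cl : D ⊆ closure O := fun w hw => by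
      have : openSegment ℝ w ⟨a / 2, a / 4⟩ ⊆ O := by
        rintro _ ⟨u, v, hu, hv, uv, rfl⟩
        obtain rfl : v = 1 - u := by linarith
        obtain ⟨x, y, z⟩ := hw
        simp only [O, mem_ofPred_eq, add_re, add_im, real_smul, re_ofReal_mul, im_ofReal_mul]
        refine ⟨?_, ?_, ?_⟩ <;> nlinarith
      exact closure_mono this (segment_subset_closure_openSegment (left_mem_segment _ _ _))
    rw [← bij.image_eq]
    rintro _ ⟨w, hw, rfl⟩
    refine closure_mono ?_ (((cψ w hw).mono (iD.trans interior_subset)).mem_closure_image (cl hw))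
    rw [bij.image_eq]
    rintro _ ⟨w, ⟨x, y, z⟩, rfl⟩
    refine interior_maximal (t := {w | 0 < w.re ∧ w.re < a ∧ g w.re < w.im ∧ w.im < f w.re})
      (fun w ⟨x, y, z, t⟩ => hB ▸ ⟨x.le, y.le, z.le, t.le⟩) ?_ ⟨x.trans y, z, ?_, ?_⟩
    · simp only [ofPred_and]
      refine .inter ?_ (.inter ?_ (.inter ?_ ?_)) <;> exact isOpen_lt (by fun_prop) (by fun_prop)
    · exact lt_add_of_pos_right _ (mul_pos (div_pos x (x.trans y))
        (sub_pos.mpr (lt _ (x.trans y) z.le)))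
    · have := mul_lt_of_lt_one_left (sub_pos.mpr (lt _ (x.trans y) z.le))
        ((div_lt_one (x.trans y)).mpr y)
      simp only [ψ]
      linarith

theorem graph (d : ℤ) (hd : 0 ≤ d ∧ d ≤ 1) : ∃ g : ℝ → ℝ, Continuous g ∧ ∀ w : ℂ,
    ((∀ j, (3*(2 * (Par.m : ℤ) + 1)) ≤ j → j ≤ (4*(2 * (Par.m : ℤ) + 1)-1) → l (j + d) (E (10*(2 * (Par.m : ℤ) + 1)+1) * w) ≤ c 0 + c j) ↔ g w.re ≤ w.im) ∧
    ((∀ j, (3*(2 * (Par.m : ℤ) + 1)) ≤ j → j ≤ (4*(2 * (Par.m : ℤ) + 1)-1) → l (j + d) (E (10*(2 * (Par.m : ℤ) + 1)+1) * w) < c 0 + c j) ↔ g w.re < w.im) := by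
  have e : ∀ (j : ℤ) (w : ℂ), l j (E (10*(2 * (Par.m : ℤ) + 1)+1) * w) = w.re * (E ((10*(2 * (Par.m : ℤ) + 1)) - 2 * j)).re - w.im * s ((5*(2 * (Par.m : ℤ) + 1)) - j) :=
    fun j w => by
      rw [l, mul_comm (E (10*(2 * (Par.m : ℤ) + 1)+1)), mul_assoc, ← E_add, mul_re, E_im, s,
        show (10*(2 * (Par.m : ℤ) + 1)+1) + -(2 * j + 1) = (10*(2 * (Par.m : ℤ) + 1)) - 2 * j by ring]
      congr 3
      push_cast
      ring
  let u : ℤ → ℝ → ℝ := fun j h => (h * (E ((10*(2 * (Par.m : ℤ) + 1)) - 2 * (j + d))).re - (c 0 + c j)) / s ((5*(2 * (Par.m : ℤ) + 1)) - (j + d))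
  have ne : (Finset.Icc ((3*(2 * (Par.m : ℤ) + 1)) : ℤ) (4*(2 * (Par.m : ℤ) + 1)-1)).Nonempty := Finset.nonempty_Icc.2 (by omega)
  refine ⟨fun h => (Finset.Icc ((3*(2 * (Par.m : ℤ) + 1)) : ℤ) (4*(2 * (Par.m : ℤ) + 1)-1)).sup' ne fun j => u j h,
    Continuous.finset_sup'_apply ne fun j _ => by fun_prop, fun w => ⟨?_, ?_⟩⟩
  · simp only [Finset.sup'_le_iff, Finset.mem_Icc, and_imp]
    refine forall₃_congr fun j a b => ?_
    rw [e, div_le_iff₀ (s_pos (by omega) (by omega))]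
    constructor <;> intro <;> linarith
  · simp only [Finset.sup'_lt_iff, Finset.mem_Icc, and_imp]
    refine forall₃_congr fun j a b => ?_
    rw [e, div_lt_iff₀ (s_pos (by omega) (by omega))]
    constructor <;> intro <;> linarith

theorem T_disk : Nonempty (T ≃ₜ closedBall (0 : ℂ) 1) ∧ T ⊆ closure (interior T) := by
  obtain ⟨g, hg, G⟩ := graph 0 (by omega)
  obtain ⟨f, hf, F⟩ := graph 1 (by omega)
  simp only [add_zero, ← l_R] at G F
  have h25 : ∀ w : ℂ, l (5*(2 * (Par.m : ℤ) + 1)) (E (10*(2 * (Par.m : ℤ) + 1)+1) * w) = w.re := fun w => by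
    rw [l, mul_comm (E (10*(2 * (Par.m : ℤ) + 1)+1)), mul_assoc, ← E_add,
      show (10*(2 * (Par.m : ℤ) + 1)+1) + -(2 * (5*(2 * (Par.m : ℤ) + 1)) + 1) = (0 : ℤ) by ring, E_zero, mul_one]
  have z : ∀ (g : ℝ → ℝ) (d : ℤ), (∀ w : ℂ,
      ((∀ j, (3*(2 * (Par.m : ℤ) + 1)) ≤ j → j ≤ (4*(2 * (Par.m : ℤ) + 1)-1) → l (j + d) (E (10*(2 * (Par.m : ℤ) + 1)+1) * w) ≤ c 0 + c j) ↔ g w.re ≤ w.im) ∧
      ((∀ j, (3*(2 * (Par.m : ℤ) + 1)) ≤ j → j ≤ (4*(2 * (Par.m : ℤ) + 1)-1) → l (j + d) (E (10*(2 * (Par.m : ℤ) + 1)+1) * w) < c 0 + c j) ↔ g w.re < w.im)) → g 0 = 0 :=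
    fun g d h => le_antisymm ((h 0).1.mp fun j _ _ => by simpa [l] using c_ge j)
      (not_lt.mp fun q => by simpa [l, c15] using (h 0).2.mpr q (3*(2 * (Par.m : ℤ) + 1)) le_rfl (by omega))
  let φ := Homeomorph.mulLeft₀ (E (10*(2 * (Par.m : ℤ) + 1)+1)) (norm_ne_zero_iff.mp (by rw [E_norm]; norm_num))
  obtain ⟨⟨a⟩, b⟩ := between hf hg c_pos
    ((z g 0 (by simpa using G)).trans (z f 1 (by simpa [l_R] using F)).symm)
    (fun h x _ => (G ⟨h, f h⟩).2.mp (N2 ((F ⟨h, f h⟩).1.mpr le_rfl) ((h25 _).symm ▸ x)))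
    (φ ⁻¹' T) (Set.ext fun w => ⟨fun q => ⟨h25 w ▸ cone q (5*(2 * (Par.m : ℤ) + 1)) (by omega), h25 w ▸ q.1,
      (G w).1.mp q.2.1, not_lt.mp (mt (F w).2.mpr q.2.2)⟩,
      fun q => ⟨(h25 w).symm ▸ q.2.1, (G w).1.mpr q.2.2.1, mt (F w).2.mp (not_lt.mpr q.2.2.2)⟩⟩)
  refine ⟨⟨(Homeomorph.setCongr (φ.surjective.image_preimage T).symm).trans
    ((φ.image _).symm.trans a)⟩, fun x hx => ?_⟩
  obtain ⟨w, rfl⟩ := φ.surjective x
  have := b hx
  rwa [← φ.preimage_interior, ← φ.preimage_closure] at this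

end Pool.Agent.H97.VB
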