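import Pool.Agent.H97.VB.C

/-! The tiles of the plane tiling and the neighbourhoods of the inner tiles of the fan. Port of the library module
`R_pool_sql_team_39128cda/Results/MP_73e00a_co/No.lean` from the fan of five tiles to a fan of `2 m + 1` tiles. -/

namespace Pool.Agent.H97.VB

open Set Metric

noncomputable section

variable [Par]

def V (i : ℤ × (Fin (2 * Par.m + 1) ⊕ ℕ)) : ℂ ≃ᵢ ℂ := U i.2 * G ^ i.1

def tile (i : ℤ × (Fin (2 * Par.m + 1) ⊕ ℕ)) : Set ℂ := V i ⁻¹' T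

theorem same {i j} {O : Set ℂ} (o : IsOpen O) (a : O ⊆ tile i) (b : O ⊆ tile j) (n : O.Nonempty) :
    i = j := by
  obtain ⟨p, x, y⟩ := gen.inter_open_nonempty _ o n
  exact Prod.ext (uniq y (a x) (b x)).1 (uniq y (a x) (b x)).2

theorem reg (i) : tile i ⊆ closure (interior (tile i)) := fun x hx => by
  have := T_disk.2 hx
  rwa [tile, ← (V i).coe_toHomeomorph, ← Homeomorph.preimage_interior,
    ← Homeomorph.preimage_closure]

theorem l_zero (j : ℤ) : l j 0 = 0 := by simp [l]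

theorem same' {i j p} (g : Gen p) (a : p ∈ tile i) (b : p ∈ tile j) : i = j :=
  Prod.ext (uniq (m := i.1) (n := j.1) g a b).1 (uniq (m := i.1) (n := j.1) g a b).2

def O : Set ℂ := {x | K' x ∧ ¬K (G x) ∧ K' (P x) ∧ h x < c 0}

theorem l_cont (j : ℤ) : Continuous (l j) := by
  unfold l
  fun_prop

theorem O_open : IsOpen O := by
  have a : IsOpen {x | K' x} := by
    have : {x | K' x} = ⋂ j ∈ Icc ((3*(2 * (Par.m : ℤ) + 1)) : ℤ) (4*(2 * (Par.m : ℤ) + 1)-1), {x | l j x < c 0 + c j} := by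
      ext
      simp [K']
    exact this ▸ (finite_Icc _ _).isOpen_biInter fun j _ => isOpen_lt (l_cont j) continuous_const
  have b : IsClosed {x | K x} := by
    simp only [K, ofPred_forall]
    exact isClosed_iInter fun j => isClosed_iInter fun _ => isClosed_iInter fun _ =>
      isClosed_le (l_cont j) continuous_const
  exact a.inter ((b.preimage G.continuous).isOpen_compl.inter ((a.preimage P.continuous).inter
    (isOpen_lt ((l_cont (5*(2 * (Par.m : ℤ) + 1))).comp P.continuous) continuous_const)))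

theorem O_sub {x} (hx : x ∈ O) : x ∈ tile (0, .inr 0) ∨ ∃ k, x ∈ tile (0, .inl k) := by
  by_cases q : K (R (P x))
  · obtain ⟨k, a, b⟩ := F_fan q hx.1.le hx.2.1
    exact Or.inr ⟨⟨k, by omega⟩, b⟩
  · exact Or.inl ⟨hx.2.2.2.le, hx.2.2.1.le, fun e => q e.le⟩

theorem in_O {k : ℕ} (a : 1 ≤ k ∧ k + 2 ≤ (2 * Par.m + 1)) {x} (hx : (R ^ k) x ∈ T) (ne : x ≠ 0) : x ∈ O := by
  have f := fan_F (by omega) hx
  have cn := fan_cone (by omega) hx
  have cn' : ∀ j : ℕ, j < (2 * Par.m + 1) → 0 < l ((5*(2 * (Par.m : ℤ) + 1)) + j) x := fun j b => by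
    have := cone' hx (fun z => ne (zero_of (i := k) (k := 1 + k) ?_ ?_ (by omega))) ((5*(2 * (Par.m : ℤ) + 1)) + j - k)
      (by omega)
    · rwa [l_Rn, sub_add_cancel] at this
    · simpa [l_Rn, l_zero] using congrArg (l 0) z
    · simpa [l_Rn, l_zero] using congrArg (l 1) z
  have k0 : K' x := N2 (desc (i := 1) (fun _ => N1) a.1 (fun j b => cn j (by omega)) hx.2.1)
    (by simpa using cn' 0 (by omega))
  have k5 : ¬K (G x) := fun q => hx.2.2 (Rs k x ▸ desc (k := 2 * Par.m) (fun _ => N3) (by omega)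
    (fun j b => cn j (by omega)) (N2 (Rs (2 * Par.m) x ▸ KG.mp q) (l_Rn (2 * Par.m) (5*(2 * (Par.m : ℤ) + 1)) x ▸ cn' (2 * Par.m) (by omega))))
  refine ⟨k0, k5, N2 f.1 ?_, ?_⟩
  · change 0 < h x
    linarith [k0.le.h.1, k0 (4*(2 * (Par.m : ℤ) + 1)-1) (by omega) le_rfl]
  · obtain ⟨i, b, d, e⟩ : ∃ i, (3*(2 * (Par.m : ℤ) + 1)) ≤ i ∧ i ≤ (4*(2 * (Par.m : ℤ) + 1)-1) ∧ c 0 + c i < l (i + (2 * (Par.m : ℤ) + 1)) x := by
      simpa [K, l_Rn] using mt KG.mpr k5
    have u : 0 ≤ l (6*(2 * (Par.m : ℤ) + 1)-1) (1 - x) := by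
      rw [l_sub, l_one, c29, sub_nonneg]
      exact KP.mp f.1 _ (by omega) le_rfl
    have v : 0 < l (i + (4*(2 * (Par.m : ℤ) + 1))) (1 - x) := by
      rw [l_neg (j := i + (2 * (Par.m : ℤ) + 1)) (by ring), l_sub, l_one]
      linarith [c5 (i := i) (j := i + (2 * (Par.m : ℤ) + 1)) (k := i + (2*(2 * (Par.m : ℤ) + 1))) (by omega), c_ge (i + (2*(2 * (Par.m : ℤ) + 1)) + (3*(2 * (Par.m : ℤ) + 1))),
        c_neg (k := i + (2*(2 * (Par.m : ℤ) + 1)) + (3*(2 * (Par.m : ℤ) + 1))) (j := i + (2*(2 * (Par.m : ℤ) + 1))) rfl]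
    have := midR u v (7*(2 * (Par.m : ℤ) + 1)-1) (by omega)
    rw [l_sub, l_one, c34, l_per (k := (7*(2 * (Par.m : ℤ) + 1)-1)) (j := ((2 * (Par.m : ℤ) + 1)-1)) (by ring)] at this
    rw [h_eq]
    linarith

theorem zero_mem (k : Fin (2 * Par.m + 1)) : 0 ∈ tile (0, .inl k) :=
  ⟨by simpa [V, U, l_Rn, l_zero] using c_pos.le, fun j _ _ => by simpa [V, U, l_Rn, l_zero] using c_ge j,
    fun q => by simpa [V, U, l_R, l_Rn, l_zero, c15] using q (3*(2 * (Par.m : ℤ) + 1)) le_rfl (by omega)⟩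

theorem nb (k : Fin (2 * Par.m + 1)) (a : 1 ≤ k.1 ∧ k.1 + 2 ≤ (2 * Par.m + 1)) (i) : (tile i ∩ tile (0, .inl k)).Nonempty ↔
    0 ∈ tile i ∨ i = (0, .inr 0) := by
  constructor
  · rintro ⟨x, b, d⟩
    by_cases ne : x = 0
    · exact Or.inl (ne ▸ b)
    obtain ⟨p, u, v⟩ := gen.inter_open_nonempty _ (O_open.inter isOpen_interior)
      (mem_closure_iff.mp (reg i b) _ O_open (in_O a d ne))
    rcases O_sub u.1 with w | ⟨j, w⟩
    · exact Or.inr (same' v (interior_subset u.2) w)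
    · rw [same' v (interior_subset u.2) w]
      exact Or.inl (zero_mem j)
  · rintro (b | rfl)
    · exact ⟨0, b, zero_mem k⟩
    · have e : ∀ j, l j ((R ^ k.1) (E (2 * ((5*(2 * (Par.m : ℤ) + 1)+1) + k)))) = c (j - (5*(2 * (Par.m : ℤ) + 1)+1)) := fun j => by
        rw [l_Rn, l_E]
        congr 1
        ring
      have c1 : c ((5*(2 * (Par.m : ℤ) + 1)) - (5*(2 * (Par.m : ℤ) + 1)+1)) = c 0 := c_sym (by ring)
      have t : (R ^ k.1) (E (2 * ((5*(2 * (Par.m : ℤ) + 1)+1) + k))) ∈ T := by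
        refine ⟨by rw [e, c1], N1 (fun j _ _ => ?_) (by rw [e, c1]; exact c_pos.le), fun q => ?_⟩
        · rw [l_R, e]
          linarith [c5 (i := j + 1 - (5*(2 * (Par.m : ℤ) + 1)+1)) (j := j - (4*(2 * (Par.m : ℤ) + 1))) (k := j - (3*(2 * (Par.m : ℤ) + 1))) (by omega), c_le (j - (4*(2 * (Par.m : ℤ) + 1))),
            c_neg (k := j) (j := j - (3*(2 * (Par.m : ℤ) + 1))) (by ring)]
        · have := q (4*(2 * (Par.m : ℤ) + 1)-1) (by omega) le_rfl
          rw [l_R, e] at this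
          linarith [c5 (i := (4*(2 * (Par.m : ℤ) + 1)-1) + 1 - (5*(2 * (Par.m : ℤ) + 1)+1)) (j := -1) (k := ((2 * (Par.m : ℤ) + 1)-1)) (by omega), c_sym (k := -1) (j := 0) rfl,
            c_neg (k := (4*(2 * (Par.m : ℤ) + 1)-1)) (j := ((2 * (Par.m : ℤ) + 1)-1)) (by ring)]
      have o := in_O a t (norm_ne_zero_iff.mp (by rw [E_norm]; norm_num))
      refine ⟨_, ⟨o.2.2.2.le, o.2.2.1.le, fun q => ?_⟩, t⟩
      have := KP'.mp q ((5*(2 * (Par.m : ℤ) + 1)) + k) (by omega) (by omega)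
      rw [l_E, c_sym (j := 0) (by ring)] at this
      exact this.false

theorem inj {j k : Fin (2 * Par.m + 1)} (e : tile (0, .inl j) = tile (0, .inl k)) : j = k := by
  have := same isOpen_interior interior_subset (interior_subset.trans e.subset)
    (closure_nonempty_iff.mp ⟨_, reg _ (zero_mem j)⟩)
  simpa using this

end

end Pool.Agent.H97.VB
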